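import Pool.Agent.MWGR.StmtsD

/-!
# Row NTK of block MWGR (MP_23468a_al)
-/

namespace Pool.Agent.MWGR.H89

open Pool.Agent.Helper14_MV Pool.Agent.Helper2_MV Pool.Agent.MVO Pool.Agent.MWL Pool.Agent.MWS
  Pool.Agent.MWH

theorem ntk (hN : NtaStmt) : NtkStmt := by
  intro n θ hB r r' q q' hr hr' hq hq' h
  have h1 := hN n θ hB [0] (2 :: X r) [] [] (0 :: 2 :: X r') [] 1 3 q q' hq hq' (by decide)
    (by
      intro D hD
      simp only [List.mem_cons, List.not_mem_nil, or_false] at hD
      rcases hD with rfl | rfl | rfl | rfl | rfl | rfl <;>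
        simp [List.mem_replicate])
    (by simpa using h)
  have h2 := hN n θ hB [] [1] [3, 1] [1] [] [3, 1] 0 2 r r' hr hr' (by decide)
    (by
      intro D hD
      simp only [List.mem_cons, List.not_mem_nil, or_false] at hD
      rcases hD with rfl | rfl | rfl | rfl | rfl | rfl <;>
        simp)
    (by simpa using h1)
  simpa [Ka] using h2

end Pool.Agent.MWGR.H89
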