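import Pool.Agent.MWGR.StmtsC

set_option autoImplicit false

/-!
# Block MWGR, row SWE (helper89): exchange with an alternating tail
-/

namespace Pool.Agent.MWGR.H89

open Pool.Agent.Helper14_MV Pool.Agent.Helper2_MV Pool.Agent.MVO Pool.Agent.MWL Pool.Agent.MWS
  Pool.Agent.MWH Pool.Agent.MWGR

/-- decomposition of a word which contains the letters `φ 0, φ 1, …` in this order -/
theorem decomp (φ : ℕ → ℕ) : ∀ (k : ℕ) (suf : List ℕ), ((List.range k).map φ).Sublist suf →
    ∃ (s : ℕ → List ℕ) (t : List ℕ),
      suf = (List.range k).flatMap (fun j => s j ++ [φ j]) ++ t := by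
  intro k
  induction k with
  | zero =>
    intro suf _
    exact ⟨fun _ => [], suf, by simp⟩
  | succ k ih =>
    intro suf h
    rw [List.range_succ, List.map_append, List.append_sublist_iff] at h
    obtain ⟨r1, r2, h1, h2, h3⟩ := h
    obtain ⟨s, t1, hs⟩ := ih r1 h2
    have h4 : φ k ∈ r2 := h3.subset (by simp)
    obtain ⟨u, v, huv⟩ := List.append_of_mem h4
    refine ⟨fun j => if j = k then t1 ++ u else s j, v, ?_⟩
    rw [List.range_succ, List.flatMap_append]
    have e1 : (List.range k).flatMap (fun j => (if j = k then t1 ++ u else s j) ++ [φ j]) =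
        (List.range k).flatMap (fun j => s j ++ [φ j]) := by
      apply List.flatMap_congr
      intro j hj
      rw [List.mem_range] at hj
      rw [if_neg (by omega)]
    rw [e1, h1, hs, huv]
    simp [List.append_assoc]

theorem X_flatMap (m : ℕ) (σ : ℕ → List ℕ) : (X m).flatMap σ = rp m (σ 0) := by
  unfold rp
  induction m with
  | zero => rfl
  | succ m ih => rw [X, List.replicate_succ, List.flatMap_cons, ih, List.replicate_succ,
      List.flatten_cons]

/-- **SWE** -/
theorem swe : SweStmt := by
  intro n c k η hk hE H pre suf a b hsub A D W _ _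
  obtain ⟨s, t, hs⟩ := decomp (fun j => if j % 2 = 0 then a else b) k suf hsub
  obtain ⟨s2, hs2⟩ : ∃ s2 : ℕ → List ℕ, s2 = fun j => if j = 0 then D ++ s 0 else s j := ⟨_, rfl⟩
  obtain ⟨σ, hσ⟩ : ∃ σ : ℕ → List ℕ, σ = fun c => if c = 0 then W else if c = 1 then [a]
    else if c = 2 then [b] else s2 (c - 3) := ⟨_, rfl⟩
  have h0 : σ 0 = W := by rw [hσ]; rfl
  have h1 : σ 1 = [a] := by rw [hσ]; rfl
  have h2 : σ 2 = [b] := by rw [hσ]; rfl
  have h3 : ∀ j, σ (3 + j) = s2 j := by
    intro j
    rw [hσ]
    have e1 : ¬ (3 + j = 0) := by omega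
    have e2 : ¬ (3 + j = 1) := by omega
    have e3 : ¬ (3 + j = 2) := by omega
    have e4 : 3 + j - 3 = j := by omega
    simp only [e1, e2, e3, if_false, e4]
  have halt : (alt k).flatMap σ ++ t = D ++ suf := by
    have e1 : (alt k).flatMap σ =
        (List.range k).flatMap (fun j => s2 j ++ [if j % 2 = 0 then a else b]) := by
      unfold alt
      rw [List.flatMap_assoc]
      apply List.flatMap_congr
      intro j _
      rw [List.flatMap_cons, List.flatMap_cons, List.flatMap_nil, List.append_nil, h3]
      congr 1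
      rcases Nat.mod_two_eq_zero_or_one j with hj | hj
      · rw [hj, if_pos rfl]
        exact h1
      · rw [hj, if_neg (by omega)]
        exact h2
    rw [e1, hs]
    obtain ⟨k', rfl⟩ : ∃ k', k = k' + 1 := ⟨k - 1, by omega⟩
    rw [List.range_succ_eq_map, List.flatMap_cons, List.flatMap_cons, List.flatMap_map,
      List.flatMap_map, hs2]
    simp [List.append_assoc]
  have h4 := hE.sub σ
  simp only [List.flatMap_append, List.flatMap_cons, X_flatMap, h0, h1, h2] at h4
  have h5 := ((RR.refl (β := η) (pre ++ A)).append h4).append (RR.refl (β := η) t)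
  simp only [List.append_assoc, List.cons_append, List.nil_append, halt] at h5
  unfold Wd
  simpa only [List.append_assoc, List.cons_append, List.nil_append] using h5

end Pool.Agent.MWGR.H89
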