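import Pool.Agent.MWGR.StmtsN
import Pool.Agent.MWGR.Mono

/-!
# Row TLE of block MWGR (MP_23468a_al): the left state
-/

namespace Pool.Agent.MWGR.H89

open Pool.Agent.Helper14_MV Pool.Agent.Helper2_MV Pool.Agent.MVO Pool.Agent.MWL Pool.Agent.MWS
  Pool.Agent.MWH

theorem tle (hN : NflStmt) (hL : LelStmt) (hF : FrlStmt) : TleStmt := by
  intro n β hR k B B' hFam i x a hik hxa hx ha
  by_cases hs : (cb (B i) x a = 0 ↔ cb (B' i) x a = 0)
  · refine ⟨[], fun e he => absurd he List.not_mem_nil, fun θ _ _ =>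
      ⟨fun _ e he => absurd he List.not_mem_nil, fun _ h => absurd hs h⟩⟩
  by_cases hr : Rg k B i x a
  swap
  · refine ⟨[], fun e he => absurd he List.not_mem_nil, fun θ hle _ =>
      ⟨fun _ e he => absurd he List.not_mem_nil, ?_⟩⟩
    intro _ _ H pr haH _ _
    exact (hF n θ (bg_mono hR.toBG hle) (kaba_mono hR.k hle) k B hFam.ok hFam.gm i x a hik hxa hr
      H pr haH).2
  have key : ∀ θ : FIC, β ≤ θ → RR θ (asm k B) (asm k B') →
      ((pre B i).count x = 0 → Ze n (RR θ)) ∧ ((pre B i).count x = 1 → Rh n (RR θ)) ∧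
        (2 ≤ (pre B i).count x → Rh' n (RR θ)) := fun θ hle h =>
    hN n k θ B B' (bg_mono hR.toBG hle) hFam h i x a hik hxa hx ha hr hs
  rcases Nat.lt_or_ge ((pre B i).count x) 1 with h0 | h1
  · have h0' : (pre B i).count x = 0 := by omega
    refine ⟨[Ed.ze], fun e he => ?_, fun θ hle _ => ⟨fun h e he => ?_, fun h => ?_⟩⟩
    · rw [List.mem_singleton] at he; subst he; trivial
    · rw [List.mem_singleton] at he; subst he
      exact (key θ hle h).1 h0'
    · intro _ H pr haH _ _
      exact (hL n θ (bg_mono hR.toBG hle) H pr (suf B i (k - i)) x a haH).1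
        (h Ed.ze (List.mem_singleton.2 rfl))
  rcases Nat.lt_or_ge ((pre B i).count x) 2 with h2 | h2
  · have h1' : (pre B i).count x = 1 := by omega
    refine ⟨[Ed.rh], fun e he => ?_, fun θ hle _ => ⟨fun h e he => ?_, fun h => ?_⟩⟩
    · rw [List.mem_singleton] at he; subst he; trivial
    · rw [List.mem_singleton] at he; subst he
      exact (key θ hle h).2.1 h1'
    · intro _ H pr haH hp _
      exact (hL n θ (bg_mono hR.toBG hle) H pr (suf B i (k - i)) x a haH).2.1
        (h Ed.rh (List.mem_singleton.2 rfl)) (hp (List.count_pos_iff.1 (by omega)))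
  · refine ⟨[Ed.rh'], fun e he => ?_, fun θ hle _ => ⟨fun h e he => ?_, fun h => ?_⟩⟩
    · rw [List.mem_singleton] at he; subst he; trivial
    · rw [List.mem_singleton] at he; subst he
      exact (key θ hle h).2.2 h2
    · intro _ H pr haH _ hp
      exact (hL n θ (bg_mono hR.toBG hle) H pr (suf B i (k - i)) x a haH).2.2
        (h Ed.rh' (List.mem_singleton.2 rfl)) (hp h2)

end Pool.Agent.MWGR.H89
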